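import Pool.Agent.Q204.KR.Main

set_option autoImplicit false

/-!
# Continuous outer measures and measures on countably generated complete subalgebras

A complete Boolean algebra carrying a continuous outer measure, all of whose countably generated
complete subalgebras carry measures, carries a measure.
-/

namespace Pool.Agent.Results.MP_2d6919_lc.AdmitsMeasure

open Q204.KR

universe u

theorem result (B : Type u) [CompleteBooleanAlgebra B]
    (hsub : ∀ C : BooleanSubalgebra B, CountGen C → ∃ μ : C → ℝ, IsMeasure μ)
    (houter : ∃ m : B → ℝ, IsContOuter m) :
    ∃ μ : B → ℝ, IsMeasure μ := by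
  obtain ⟨m, hm⟩ := houter
  exact main hm hsub

end Pool.Agent.Results.MP_2d6919_lc.AdmitsMeasure
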